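import Pool.Agent.H8.AA.Def

/-! # Exchange of the variables keeps irreducibility (module ir_sw of H8/AA/Med) -/

namespace Pool.Agent.H97.AA

open Polynomial Pool.Agent.H8.AA

theorem reverse_reverse_eq {R : Type*} [Semiring R] {f : R[X]} (h : f.coeff 0 ≠ 0) :
    f.reverse.reverse = f := by
  have hz : f.natTrailingDegree = 0 := by
    rw [natTrailingDegree_eq_zero]
    exact Or.inr h
  have hd : f.reverse.natDegree = f.natDegree := by
    rw [reverse_natDegree, hz, Nat.sub_zero]
  ext i
  rw [coeff_reverse, coeff_reverse, hd, revAt_invol]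

theorem irreducible_reverse {K : Type*} [Field K] {f : K[X]} (hf : Irreducible f)
    (h0 : f.coeff 0 ≠ 0) (hn : 0 < f.natDegree) : Irreducible f.reverse := by
  have hf0 : f ≠ 0 := hf.ne_zero
  have hz : f.natTrailingDegree = 0 := by
    rw [natTrailingDegree_eq_zero]
    exact Or.inr h0
  have hd : f.reverse.natDegree = f.natDegree := by
    rw [reverse_natDegree, hz, Nat.sub_zero]
  have key : ∀ a b : K[X], f.reverse = a * b → IsUnit a.reverse → IsUnit a := by
    intro a b hab ha
    have h1 : f.reverse.coeff 0 ≠ 0 := by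
      rw [coeff_zero_reverse]
      exact leadingCoeff_ne_zero.2 hf0
    have h2 : a.coeff 0 ≠ 0 := by
      intro h
      apply h1
      rw [hab, mul_coeff_zero, h, zero_mul]
    have h3 : a.natTrailingDegree = 0 := by
      rw [natTrailingDegree_eq_zero]
      exact Or.inr h2
    have h4 : a.reverse.natDegree = 0 := natDegree_eq_zero_of_isUnit ha
    rw [reverse_natDegree, h3, Nat.sub_zero] at h4
    have h5 : a ≠ 0 := by
      rintro rfl
      exact h2 (by simp)
    rw [eq_C_of_natDegree_eq_zero h4] at h5 ⊢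
    exact isUnit_C.2 (isUnit_iff_ne_zero.2 fun h => h5 (by rw [h, C_0]))
  refine ⟨fun h => ?_, fun a b hab => ?_⟩
  · have := natDegree_eq_zero_of_isUnit h
    omega
  · have h1 : f = a.reverse * b.reverse := by
      rw [← reverse_mul_of_domain, ← hab, reverse_reverse_eq h0]
    rcases hf.isUnit_or_isUnit h1 with h | h
    · exact Or.inl (key a b hab h)
    · exact Or.inr (key b a (by rw [hab, mul_comm]) h)

theorem ir_sw (n : ℕ) (hn : 2 ≤ n) (e : ℕ → ℕ → ℤ) (h : Ir n e) : Ir n (sw e) := by
  obtain ⟨h0, hi⟩ := h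
  set f : ℚ[X] := (fm e n).map (Int.castRingHom ℚ) with hf
  have hc : ∀ j, f.coeff j = if j ≤ n then (e (n - j) j : ℚ) else 0 := by
    intro j
    rw [hf, coeff_map, fm_coeff]
    split <;> simp
  have hn' : f.coeff n ≠ 0 := by
    rw [hc, if_pos le_rfl, Nat.sub_self]
    exact_mod_cast h0
  have hdeg : f.natDegree = n := by
    refine le_antisymm ?_ (le_natDegree_of_ne_zero hn')
    exact natDegree_map_le.trans (fm_deg e n)
  have hf0 : f.coeff 0 ≠ 0 := by
    intro h
    have h1 : X ∣ f := X_dvd_iff.2 h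
    obtain ⟨g, hg⟩ := h1
    rcases hi.isUnit_or_isUnit hg with hu | hu
    · exact not_isUnit_X hu
    · have h2 : g.natDegree = 0 := natDegree_eq_zero_of_isUnit hu
      have h3 : f.natDegree ≤ 1 := by
        rw [hg]
        refine natDegree_mul_le.trans ?_
        rw [natDegree_X, h2]
      omega
  have hrev : (fm (sw e) n).map (Int.castRingHom ℚ) = f.reverse := by
    ext j
    rw [coeff_reverse, hdeg, coeff_map, fm_coeff]
    by_cases hj : j ≤ n
    · rw [if_pos hj, revAt_le hj, hc, if_pos (Nat.sub_le n j), Nat.sub_sub_self hj]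
      simp [sw]
    · have hj' : n < j := by omega
      rw [if_neg hj, revAt_eq_self_of_lt hj', hc, if_neg hj]
      simp
  refine ⟨?_, ?_⟩
  · have : (e n 0 : ℚ) ≠ 0 := by
      rw [hc, if_pos (Nat.zero_le n), Nat.sub_zero] at hf0
      exact hf0
    show e n 0 ≠ 0
    exact_mod_cast this
  · rw [hrev]
    exact irreducible_reverse hi hf0 (by omega)

end Pool.Agent.H97.AA
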